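import Pool.Agent.TH612.GS.Stm
import Pool.Agent.H401R2.EM

set_option autoImplicit false

/-!
Project GS, piece AP: zeta minus its partial sum of length `T^{5/4}` in `L¹`.
-/

namespace Pool.Agent.TH264.GS

open Complex Filter Topology MeasureTheory Set

lemma pw (p u : ℝ) (hp1 : 1 ≤ p) (hu0 : 0 ≤ u) (hu : u ≤ 2 * p ^ 8) (N : ℕ) (hN : 2 ≤ N)
    (hN1 : p ^ 10 ≤ N) (hN2 : (N : ℝ) ≤ 2 * p ^ 10) :
    ‖riemannZeta (1 / 2 + I * (u : ℂ)) - ZU.DN N (1 / 2 + I * (u : ℂ))‖ ≤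
      6 * p ^ 5 / (1 + u) + 7 / p ^ 3 := by
  have hp0 : 0 < p := by linarith
  set s : ℂ := 1 / 2 + I * (u : ℂ) with hs
  have hre : s.re = 1 / 2 := by simp [hs]
  have him : s.im = u := by simp [hs]
  have hN2' : (2 : ℝ) ≤ N := by exact_mod_cast hN
  have hNpos : 0 < N := by omega
  have hN0 : (0 : ℝ) < N := by linarith
  have hp8 : 1 ≤ p ^ 8 := one_le_pow₀ hp1
  have hs1 : s ≠ 1 := by
    intro h
    have := congrArg Complex.re h
    rw [hre] at this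
    simp at this
  have hz := Pool.Agent.H401R2.zeta_em N hN s (by rw [hre]; norm_num) hs1
  unfold Pool.Agent.H401R2.emE at hz
  set q := Real.sqrt N with hq
  have hq0 : 0 < q := Real.sqrt_pos.2 hN0
  have hq2 : q ^ 2 = N := Real.sq_sqrt hN0.le
  have hqp : p ^ 5 ≤ q := by
    rw [hq]
    apply Real.le_sqrt_of_sq_le
    calc (p ^ 5) ^ 2 = p ^ 10 := by ring
      _ ≤ (N : ℝ) := hN1
  have hqp2 : q ≤ 2 * p ^ 5 := by
    rw [hq]
    apply Real.sqrt_le_iff.2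
    refine ⟨by positivity, hN2.trans ?_⟩
    have : 0 < p ^ 10 := by positivity
    nlinarith
  have n1 : ‖(N : ℂ) ^ (-s)‖ = 1 / q := by
    rw [Complex.norm_natCast_cpow_of_pos hNpos, Complex.neg_re, hre, Real.rpow_neg hN0.le, hq,
      Real.sqrt_eq_rpow]
    exact (one_div _).symm
  have n2 : ‖(N : ℂ) ^ (1 - s)‖ = q := by
    rw [Complex.norm_natCast_cpow_of_pos hNpos, Complex.sub_re, hre, hq, Real.sqrt_eq_rpow]
    norm_num
  have n3 : ‖(N : ℂ) ^ (-s - 1)‖ = 1 / (q * N) := by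
    rw [Complex.norm_natCast_cpow_of_pos hNpos, Complex.sub_re, Complex.neg_re, hre, hq,
      Real.sqrt_eq_rpow]
    have e : (-(1 / 2) - (1 : ℂ).re : ℝ) = -(1 / 2 + 1) := by simp; norm_num
    rw [e, Real.rpow_neg hN0.le, Real.rpow_add hN0, Real.rpow_one]
    exact (one_div _).symm
  have hsn : ‖s‖ ≤ 3 * p ^ 8 := by
    have h1 := Complex.norm_le_abs_re_add_abs_im s
    rw [hre, him, abs_of_nonneg hu0] at h1
    have h2 : |(1 / 2 : ℝ)| = 1 / 2 := abs_of_pos (by norm_num)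
    rw [h2] at h1
    linarith
  have hs1n : (1 + u) / 3 ≤ ‖s - 1‖ := by
    have h1 := Complex.abs_im_le_norm (s - 1)
    have h2 : (s - 1).im = u := by rw [Complex.sub_im, him]; simp
    rw [h2, abs_of_nonneg hu0] at h1
    have h3 := Complex.abs_re_le_norm (s - 1)
    have h4 : (s - 1).re = -(1 / 2) := by rw [Complex.sub_re, hre]; norm_num
    rw [h4, abs_neg, abs_of_pos (by norm_num : (0 : ℝ) < 1 / 2)] at h3
    linarith
  have hu1 : 0 < 1 + u := by linarith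
  have hp35 : p ^ 3 ≤ p ^ 5 := pow_le_pow_right₀ hp1 (by norm_num)
  have hp37 : p ^ 3 ≤ p ^ 7 := pow_le_pow_right₀ hp1 (by norm_num)
  have b1 : ‖(N : ℂ) ^ (-s) / 2‖ ≤ 1 / p ^ 3 := by
    rw [norm_div, n1]
    have h2 : ‖(2 : ℂ)‖ = 2 := by simp
    rw [h2]
    have h3 : 0 ≤ 1 / q := by positivity
    have h4 : 1 / q ≤ 1 / p ^ 3 := one_div_le_one_div_of_le (by positivity) (hp35.trans hqp)
    linarith
  have b2 : ‖(N : ℂ) ^ (1 - s) / (s - 1)‖ ≤ 6 * p ^ 5 / (1 + u) := by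
    rw [norm_div, n2, div_le_div_iff₀ (by linarith [div_pos hu1 (by norm_num : (0:ℝ) < 3)]) hu1]
    have h5 : 1 + u ≤ 3 * ‖s - 1‖ := by linarith
    calc q * (1 + u) ≤ 2 * p ^ 5 * (3 * ‖s - 1‖) := by gcongr
      _ = 6 * p ^ 5 * ‖s - 1‖ := by ring
  have b3 : ‖s * (N : ℂ) ^ (-s - 1) / 12‖ ≤ 1 / p ^ 3 := by
    rw [norm_div, norm_mul, n3]
    have h2 : ‖(12 : ℂ)‖ = 12 := by simp
    rw [h2]
    have h3 : 1 / (q * N) ≤ 1 / p ^ 15 := by
      apply one_div_le_one_div_of_le (by positivity)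
      calc p ^ 15 = p ^ 5 * p ^ 10 := by ring
        _ ≤ q * N := by gcongr
    calc ‖s‖ * (1 / (q * N)) / 12 ≤ (3 * p ^ 8) * (1 / p ^ 15) / 12 := by gcongr
      _ = (1 / 4) * (1 / p ^ 7) := by field_simp; ring
      _ ≤ 1 / p ^ 7 := by
        have : 0 < 1 / p ^ 7 := by positivity
        linarith
      _ ≤ 1 / p ^ 3 := one_div_le_one_div_of_le (by positivity) hp37
  have b4 : ‖s * (s + 1) * (s + 2) * (s + 3)‖ / 720 * (N : ℝ) ^ (-s.re) *
      (1 / (3 * ((N : ℝ) - 1) ^ 3)) ≤ 5 / p ^ 3 := by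
    have e1 : (N : ℝ) ^ (-s.re) = 1 / q := by
      rw [hre, Real.rpow_neg hN0.le, hq, Real.sqrt_eq_rpow]
      exact (one_div _).symm
    rw [e1]
    have hb : ∀ c : ℂ, ‖c‖ ≤ 3 → ‖s + c‖ ≤ 6 * p ^ 8 := by
      intro c hc
      refine (norm_add_le _ _).trans ?_
      linarith
    have h1 : ‖s * (s + 1) * (s + 2) * (s + 3)‖
        ≤ 6 * p ^ 8 * (6 * p ^ 8) * (6 * p ^ 8) * (6 * p ^ 8) := by
      rw [norm_mul, norm_mul, norm_mul]
      have c1 := hb 1 (by simp)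
      have c2 := hb 2 (by simp; norm_num)
      have c3 := hb 3 (by simp)
      have c0 : ‖s‖ ≤ 6 * p ^ 8 := by linarith
      gcongr
    have h2 : p ^ 10 / 2 ≤ (N : ℝ) - 1 := by linarith
    have h3 : 1 / (3 * ((N : ℝ) - 1) ^ 3) ≤ 1 / (3 * (p ^ 10 / 2) ^ 3) := by
      apply one_div_le_one_div_of_le (by positivity)
      gcongr
    have h4 : 1 / q ≤ 1 / p ^ 5 := one_div_le_one_div_of_le (by positivity) hqp
    calc ‖s * (s + 1) * (s + 2) * (s + 3)‖ / 720 * (1 / q) * (1 / (3 * ((N : ℝ) - 1) ^ 3))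
        ≤ (6 * p ^ 8 * (6 * p ^ 8) * (6 * p ^ 8) * (6 * p ^ 8)) / 720 * (1 / p ^ 5) *
          (1 / (3 * (p ^ 10 / 2) ^ 3)) := by
          have h5 : 0 ≤ 1 / (3 * ((N : ℝ) - 1) ^ 3) := by
            have : 0 < (N : ℝ) - 1 := by linarith
            positivity
          gcongr
      _ = (24 / 5) * (1 / p ^ 3) := by field_simp; ring
      _ ≤ 5 / p ^ 3 := by
        have : 0 < 1 / p ^ 3 := by positivity
        rw [show (5 : ℝ) / p ^ 3 = 5 * (1 / p ^ 3) by ring]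
        linarith
  have e0 : riemannZeta s - ZU.DN N s = (riemannZeta s - (ZU.DN N s - (N : ℂ) ^ (-s) / 2 +
      (N : ℂ) ^ (1 - s) / (s - 1) + s * (N : ℂ) ^ (-s - 1) / 12)) - (N : ℂ) ^ (-s) / 2 +
      (N : ℂ) ^ (1 - s) / (s - 1) + s * (N : ℂ) ^ (-s - 1) / 12 := by ring
  rw [e0]
  have t1 := norm_add_le ((riemannZeta s - (ZU.DN N s - (N : ℂ) ^ (-s) / 2 +
      (N : ℂ) ^ (1 - s) / (s - 1) + s * (N : ℂ) ^ (-s - 1) / 12)) - (N : ℂ) ^ (-s) / 2 +
      (N : ℂ) ^ (1 - s) / (s - 1)) (s * (N : ℂ) ^ (-s - 1) / 12)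
  have t2 := norm_add_le ((riemannZeta s - (ZU.DN N s - (N : ℂ) ^ (-s) / 2 +
      (N : ℂ) ^ (1 - s) / (s - 1) + s * (N : ℂ) ^ (-s - 1) / 12)) - (N : ℂ) ^ (-s) / 2)
      ((N : ℂ) ^ (1 - s) / (s - 1))
  have t3 := norm_sub_le (riemannZeta s - (ZU.DN N s - (N : ℂ) ^ (-s) / 2 +
      (N : ℂ) ^ (1 - s) / (s - 1) + s * (N : ℂ) ^ (-s - 1) / 12)) ((N : ℂ) ^ (-s) / 2)
  have e7 : (7 : ℝ) / p ^ 3 = 5 / p ^ 3 + 1 / p ^ 3 + 1 / p ^ 3 := by ring
  rw [e7]
  linarith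

theorem t_AP : Pool.Agent.TH612.GS.S_AP := by
  refine ⟨74, 2, by norm_num, by norm_num, ?_⟩
  intro T X hT h1 h2
  have hT0 : 0 < T := by linarith
  set p := T ^ (1 / 8 : ℝ) with hp
  have hp0 : 0 < p := Real.rpow_pos_of_pos hT0 _
  have hp1 : 1 ≤ p := Real.one_le_rpow (by linarith) (by norm_num)
  have hp8 : T = p ^ 8 := by
    rw [hp, ← Real.rpow_natCast, ← Real.rpow_mul hT0.le]; norm_num
  have hp10 : T ^ (5 / 4 : ℝ) = p ^ 10 := by
    rw [hp, ← Real.rpow_natCast, ← Real.rpow_mul hT0.le]; norm_num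
  have hp6 : T ^ (3 / 4 : ℝ) = p ^ 6 := by
    rw [hp, ← Real.rpow_natCast, ← Real.rpow_mul hT0.le]; norm_num
  rw [hp10] at h1 h2
  rw [hp6]
  have hX : 2 ≤ X := by
    have h3 : (2 : ℝ) ≤ X := by
      refine le_trans ?_ h1
      have : p ^ 8 ≤ p ^ 10 := pow_le_pow_right₀ hp1 (by norm_num)
      linarith
    exact_mod_cast h3
  have hpt : ∀ u ∈ Ioc (0 : ℝ) (2 * T), ‖Pool.Agent.TH612.GS.z u - Pool.Agent.TH612.GS.PN X u‖ ≤
      6 * p ^ 5 / (1 + u) + 7 / p ^ 3 := by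
    intro u hu
    exact pw p u hp1 hu.1.le (by rw [← hp8]; exact hu.2) X hX h1 h2
  have hcont : ContinuousOn (fun u : ℝ => 6 * p ^ 5 / (1 + u) + 7 / p ^ 3) (Icc 0 (2 * T)) := by
    apply ContinuousOn.add _ continuousOn_const
    apply ContinuousOn.div continuousOn_const (continuousOn_const.add continuousOn_id)
    intro u hu
    have h0 : (0 : ℝ) ≤ u := hu.1
    exact ne_of_gt (show (0 : ℝ) < 1 + u by linarith)
  have hFTC : ∫ u in (0:ℝ)..(2 * T), (6 * p ^ 5 / (1 + u) + 7 / p ^ 3)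
      = (6 * p ^ 5 * Real.log (1 + 2 * T) + 7 / p ^ 3 * (2 * T)) -
        (6 * p ^ 5 * Real.log (1 + 0) + 7 / p ^ 3 * 0) := by
    apply intervalIntegral.integral_eq_sub_of_hasDerivAt
      (f := fun u => 6 * p ^ 5 * Real.log (1 + u) + 7 / p ^ 3 * u)
    · intro u hu
      rw [uIcc_of_le (by linarith)] at hu
      have hu1 : 1 + u ≠ 0 := by linarith [hu.1]
      have d1 : HasDerivAt (fun u : ℝ => Real.log (1 + u)) (1 / (1 + u)) u :=
        ((hasDerivAt_id u).const_add 1).log hu1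
      have d2 := (d1.const_mul (6 * p ^ 5)).add ((hasDerivAt_id u).const_mul (7 / p ^ 3))
      refine d2.congr_deriv ?_
      simp
      ring
    · apply ContinuousOn.intervalIntegrable
      rw [uIcc_of_le (by linarith)]
      exact hcont
  have hmono : ∫ u in (0:ℝ)..(2 * T), ‖Pool.Agent.TH612.GS.z u - Pool.Agent.TH612.GS.PN X u‖ ≤
      ∫ u in (0:ℝ)..(2 * T), (6 * p ^ 5 / (1 + u) + 7 / p ^ 3) := by
    rw [intervalIntegral.integral_of_le (by linarith), intervalIntegral.integral_of_le (by linarith)]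
    apply integral_mono_of_nonneg
    · exact Eventually.of_forall fun u => norm_nonneg _
    · exact (hcont.integrableOn_Icc).mono_set Ioc_subset_Icc_self
    · rw [EventuallyLE, ae_restrict_iff' measurableSet_Ioc]
      exact Eventually.of_forall fun u hu => hpt u hu
  refine hmono.trans ?_
  rw [hFTC]
  have hlog : Real.log (1 + 2 * T) ≤ 10 * p := by
    have h3 : 1 + 2 * T ≤ 3 * p ^ 8 := by
      rw [← hp8]; linarith
    have h4 : Real.log (1 + 2 * T) ≤ Real.log (3 * p ^ 8) := Real.log_le_log (by linarith) h3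
    rw [Real.log_mul (by norm_num) (by positivity), Real.log_pow] at h4
    have h5 := Real.log_le_sub_one_of_pos (show (0 : ℝ) < 3 by norm_num)
    have h6 := Real.log_le_sub_one_of_pos hp0
    push_cast at h4
    linarith
  have e2 : 7 / p ^ 3 * (2 * T) = 14 * p ^ 5 := by
    rw [hp8]; field_simp; ring
  rw [e2]
  simp only [add_zero, Real.log_one, mul_zero, sub_zero]
  have h7 : p ^ 5 ≤ p ^ 6 := pow_le_pow_right₀ hp1 (by norm_num)
  have h8 : 6 * p ^ 5 * Real.log (1 + 2 * T) ≤ 6 * p ^ 5 * (10 * p) :=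
    mul_le_mul_of_nonneg_left hlog (by positivity)
  have h9 : 6 * p ^ 5 * (10 * p) = 60 * p ^ 6 := by ring
  linarith

end Pool.Agent.TH264.GS
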